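import Pool.Agent.Helper22.TW.Stmts

/-!
# TW: module CNT
-/

set_option autoImplicit false

namespace Pool.Agent.Helper22.TW

open Pool.Agent.Helper14.BSC Polynomial

theorem cnt_hom {F k : Type} [Field F] [Field k] [Algebra F k] {p : ℕ} [Fact p.Prime]
    (σ₀ : F →+* ℂ_[p]) (σ : k →+* ℂ_[p]) (h : ∀ a : F, σ (algebraMap F k a) = σ₀ a) (t : k)
    (A : F[X]) : σ (aeval t A) = (A.map σ₀).eval (σ t) := by
  have h1 : σ.comp (algebraMap F k) = σ₀ := RingHom.ext h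
  rw [Polynomial.aeval_def, Polynomial.hom_eval₂, h1, Polynomial.eval_map]

theorem st_CNT (hFRAC : ST_FRAC) : ST_CNT := by
  intro F k _ _ _ t ht c p hp σ δ hδ
  obtain ⟨A, B, hB, hB0, hc⟩ := hFRAC F k t ht c
  let σ₀ : F →+* ℂ_[p] := σ.comp (algebraMap F k)
  have e1 : ∀ a : F, σ (algebraMap F k a) = σ₀ a := fun a => rfl
  have hB1 : (B.map σ₀).eval (σ t) ≠ 0 := by
    rw [← cnt_hom σ₀ σ e1 t B]
    exact (map_ne_zero σ).2 hB0
  have hcont : ContinuousAt (fun x : ℂ_[p] => (A.map σ₀).eval x / (B.map σ₀).eval x) (σ t) :=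
    ((A.map σ₀).continuous.continuousAt).div ((B.map σ₀).continuous.continuousAt) hB1
  obtain ⟨ε, hε, hlt⟩ := Metric.continuousAt_iff.1 hcont _ hδ
  refine ⟨ε, hε, ?_⟩
  intro σ' hσ' hd
  have e2 : ∀ a : F, σ' (algebraMap F k a) = σ₀ a := fun a => hσ' a
  have h1 := hlt (x := σ' t) (by rw [dist_eq_norm]; exact hd)
  rw [dist_eq_norm] at h1
  rw [hc, map_div₀, map_div₀, cnt_hom σ₀ σ' e2 t A, cnt_hom σ₀ σ' e2 t B, cnt_hom σ₀ σ e1 t A,
    cnt_hom σ₀ σ e1 t B]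
  exact h1

end Pool.Agent.Helper22.TW
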