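import Pool.Agent.Helper22.TW.Stmts

/-!
# TW: module FRAC
-/

set_option autoImplicit false

namespace Pool.Agent.Helper22.TW

open Pool.Agent.Helper14.BSC Polynomial

theorem st_FRAC : ST_FRAC := by
  intro F k _ _ _ t ht c
  have hc : c ∈ IntermediateField.adjoin F {t} := by
    rw [ht.2]
    trivial
  obtain ⟨r, s, h⟩ := (IntermediateField.mem_adjoin_simple_iff F c).1 hc
  by_cases hs : aeval t s = 0
  · refine ⟨0, 1, one_ne_zero, ?_, ?_⟩
    · rw [map_one]
      exact one_ne_zero
    · rw [h, hs, div_zero, map_zero, zero_div]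
  · refine ⟨r, s, ?_, hs, h⟩
    rintro rfl
    exact hs (map_zero _)

end Pool.Agent.Helper22.TW
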