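import Pool.Agent.Helper22.TW.Stmts

/-!
# TW: module ORDP
-/

set_option autoImplicit false

namespace Pool.Agent.Helper22.TW

open Pool.Agent.Helper14.BSC Polynomial

theorem ordp_hom {F k : Type} [Field F] [Field k] [Algebra F k] {p : ℕ} [Fact p.Prime]
    (σ₀ : F →+* ℂ_[p]) (σ : k →+* ℂ_[p]) (h : ∀ a : F, σ (algebraMap F k a) = σ₀ a) (t : k)
    (A : F[X]) : σ (aeval t A) = (A.map σ₀).eval (σ t) := by
  have h1 : σ.comp (algebraMap F k) = σ₀ := RingHom.ext h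
  rw [Polynomial.aeval_def, Polynomial.hom_eval₂, h1, Polynomial.eval_map]

theorem st_ORDP : ST_ORDP := by
  intro F k _ _ _ t ht v A hA
  obtain ⟨A₁, hA₁, hnd⟩ := Polynomial.exists_eq_pow_rootMultiplicity_mul_and_not_dvd A hA v
  have hu : A₁.eval v ≠ 0 := fun h => hnd (Polynomial.dvd_iff_isRoot.2 h)
  refine ⟨A₁.eval v, hu, ?_⟩
  intro p hp σ₀
  have hu' : 0 < ‖σ₀ (A₁.eval v)‖ := norm_pos_iff.2 ((map_ne_zero σ₀).2 hu)
  have hev : (A₁.map σ₀).eval (σ₀ v) = σ₀ (A₁.eval v) := by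
    rw [Polynomial.eval_map, Polynomial.eval₂_at_apply]
  have hcont : ContinuousAt (fun x : ℂ_[p] => (A₁.map σ₀).eval x) (σ₀ v) :=
    (A₁.map σ₀).continuous.continuousAt
  obtain ⟨ε, hε, hlt⟩ := Metric.continuousAt_iff.1 hcont _ hu'
  refine ⟨ε, hε, ?_⟩
  intro σ hσ _ hd
  have h1 : ‖(A₁.map σ₀).eval (σ t) - σ₀ (A₁.eval v)‖ < ‖σ₀ (A₁.eval v)‖ := by
    have := hlt (x := σ t) (by rw [dist_eq_norm]; exact hd)
    rw [dist_eq_norm, hev] at this
    exact this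
  have h2 : ‖(A₁.map σ₀).eval (σ t)‖ = ‖σ₀ (A₁.eval v)‖ := by
    have h3 := IsUltrametricDist.norm_add_eq_max_of_norm_ne_norm h1.ne
    rw [sub_add_cancel, max_eq_right h1.le] at h3
    exact h3
  conv_lhs => rw [hA₁]
  rw [map_mul, map_pow, map_mul, map_pow, norm_mul, norm_pow, ordp_hom σ₀ σ hσ t A₁, h2,
    map_sub, map_sub, aeval_X, aeval_C, hσ, mul_comm]

end Pool.Agent.Helper22.TW
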