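import Pool.Agent.Helper22.TW.Stmts

/-!
# TW: module TRB
-/

set_option autoImplicit false

namespace Pool.Agent.Helper22.TW

open Pool.Agent.Helper14.BSC Polynomial

theorem st_TRB : ST_TRB := by
  intro F k Ω _ _ _ _ _ _ _ t ht A hA hz
  have h1 : IsAlgebraic (Acl F Ω) (algebraMap k Ω t) := ⟨A, hA, hz⟩
  have h2 : IsAlgebraic F (algebraMap k Ω t) := h1.restrictScalars F
  have h3 : IsAlgebraic F t :=
    (isAlgebraic_algebraMap_iff (FaithfulSMul.algebraMap_injective k Ω)).1 h2
  exact ht.1 h3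

end Pool.Agent.Helper22.TW
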