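import Pool.Agent.Helper22.TW.Stmts
import Pool.Agent.Helper50.BSC.EFIN

/-!
# TW: module UNF
-/

set_option autoImplicit false

namespace Pool.Agent.Helper22.TW

open Pool.Agent.Helper14.BSC Polynomial

theorem unf_norm_p (p : ℕ) [hp : Fact p.Prime] : ‖(p : ℂ_[p])‖ = (p : ℝ)⁻¹ := by
  have h := norm_algebraMap' ℂ_[p] (p : ℚ_[p])
  rw [map_natCast] at h
  rw [h]
  exact Padic.norm_p

theorem st_UNF : ST_UNF := by
  intro p hp E hE
  obtain ⟨e, N, he, hN, hv⟩ := st_EFIN p E hE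
  have hp1 : (1 : ℝ) < p := by exact_mod_cast hp.out.one_lt
  have hp0 : (p : ℝ) ≠ 0 := by positivity
  have hpC : (p : ℂ_[p]) ≠ 0 := by
    intro h
    have h1 := unf_norm_p p
    rw [h, norm_zero] at h1
    exact (inv_ne_zero hp0) h1.symm
  have hex : ∃ k : ℕ, 0 < k ∧ ∃ w ∈ E, w ≠ 0 ∧ ‖w‖ ^ e = (p : ℝ) ^ (-(k : ℤ)) := by
    refine ⟨e, he, (p : ℂ_[p]), ?_, hpC, ?_⟩
    · exact natCast_mem E p
    · rw [unf_norm_p, zpow_neg, zpow_natCast, inv_pow]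
  classical
  obtain ⟨hk, w, hwE, hw0, hw⟩ := Nat.find_spec hex
  set k := Nat.find hex with hkdef
  have hmin : ∀ m : ℕ, m < k → ¬ (0 < m ∧ ∃ w ∈ E, w ≠ 0 ∧ ‖w‖ ^ e = (p : ℝ) ^ (-(m : ℤ))) :=
    fun m hm => Nat.find_min hex hm
  have hwpos : 0 < ‖w‖ := norm_pos_iff.2 hw0
  have hw1 : ‖w‖ < 1 := by
    by_contra h
    have h1 : 1 ≤ ‖w‖ ^ e := one_le_pow₀ (not_lt.1 h)
    rw [hw] at h1
    have h2 : (p : ℝ) ^ (-(k : ℤ)) < 1 := zpow_lt_one_of_neg₀ hp1 (by omega)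
    linarith
  refine ⟨w, hwE, hwpos, hw1, ?_⟩
  intro z hz hz0
  obtain ⟨⟨j, hj⟩, -⟩ := hv z hz hz0
  have hzpos : 0 < ‖z‖ := norm_pos_iff.2 hz0
  have hkZ : (0 : ℤ) < k := by exact_mod_cast hk
  have hr0 := Int.emod_nonneg j hkZ.ne'
  have hr1 := Int.emod_lt_of_pos j hkZ
  have hdm := Int.emod_add_mul_ediv j k
  -- the element of exponent `r = j mod k`
  have hz' : z * w ^ (j / k) ∈ E := mul_mem hz (zpow_mem hwE _)
  have hz'0 : z * w ^ (j / k) ≠ 0 := mul_ne_zero hz0 (zpow_ne_zero _ hw0)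
  have hz'n : ‖z * w ^ (j / k)‖ ^ e = (p : ℝ) ^ (j % k) := by
    rw [norm_mul, mul_pow, hj, norm_zpow, ← zpow_natCast (‖w‖ ^ (j / k)) e, ← zpow_mul,
      mul_comm (j / (k : ℤ)) (e : ℤ), zpow_mul, zpow_natCast, hw, ← zpow_mul, ← zpow_add₀ hp0]
    congr 1
    linarith
  have hr : j % k = 0 := by
    by_contra hne
    have hrpos : 0 < j % k := lt_of_le_of_ne hr0 (Ne.symm hne)
    refine hmin (j % k).toNat (by omega) ⟨by omega, (z * w ^ (j / k))⁻¹, inv_mem hz',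
      inv_ne_zero hz'0, ?_⟩
    rw [norm_inv, inv_pow, hz'n, zpow_neg, Int.toNat_of_nonneg hr0]
  refine ⟨-(j / k), ?_⟩
  rw [hr, zpow_zero] at hz'n
  have h1 : ‖z * w ^ (j / k)‖ = 1 := by
    have h2 : ‖z * w ^ (j / k)‖ ^ e = 1 ^ e := by rw [hz'n, one_pow]
    exact (pow_left_inj₀ (norm_nonneg _) zero_le_one he.ne').1 h2
  rw [norm_mul, norm_zpow] at h1
  rw [zpow_neg]
  exact eq_inv_of_mul_eq_one_left h1

end Pool.Agent.Helper22.TW
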